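import Pool.Agent.Helper95.HS.GoalsA

/-! # SBG: the bound of `S` by its average -/

open Complex Metric Set Filter Topology MeasureTheory
open scoped ContDiff ComplexConjugate ComplexOrder Manifold Matrix

namespace Pool.Agent.Helper56.HS

open Pool.Agent.Helper95.Lin Pool.Agent.Helper16.Abund Pool.Agent.Helper10.SP
  Pool.Agent.Helper57.HS Pool.Agent.Helper95.HS

universe u

section basics

variable {n : ℕ}

theorem cd_congr (l : Fin n) {f g : Cn n → ℂ} {x : Cn n} (h : f =ᶠ[𝓝 x] g) :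
    cd l f x = cd l g x := by
  unfold cd
  rw [h.fderiv_eq]

theorem cdb_congr (l : Fin n) {f g : Cn n → ℂ} {x : Cn n} (h : f =ᶠ[𝓝 x] g) :
    cdb l f x = cdb l g x := by
  unfold cdb
  rw [h.fderiv_eq]

theorem LM_congr {Φ Ψ : Cn n → ℝ} {x : Cn n} (h : Φ =ᶠ[𝓝 x] Ψ) : LM Φ x = LM Ψ x := by
  ext j k
  unfold LM
  simp only [Matrix.of_apply]
  refine cd_congr j ?_
  filter_upwards [h.eventuallyEq_nhds] with y hy
  refine cdb_congr k ?_
  filter_upwards [hy] with z hz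
  rw [hz]

theorem LM_add (hW : S_WIRT) {W : Set (Cn n)} (hWo : IsOpen W) {Φ Ψ : Cn n → ℝ}
    (h1 : ContDiffOn ℝ ∞ Φ W) (h2 : ContDiffOn ℝ ∞ Ψ W) {x : Cn n} (hx : x ∈ W) :
    LM (fun y => Φ y + Ψ y) x = LM Φ x + LM Ψ x := by
  have c1 : ContDiffOn ℝ ∞ (fun y => (Φ y : ℂ)) W :=
    Complex.ofRealCLM.contDiff.comp_contDiffOn h1
  have c2 : ContDiffOn ℝ ∞ (fun y => (Ψ y : ℂ)) W :=
    Complex.ofRealCLM.contDiff.comp_contDiffOn h2
  obtain ⟨s1, -, -, -, -, -⟩ := hW W hWo _ _ c1 c2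
  obtain ⟨s2, -, -, -, -, -⟩ := hW W hWo _ _ c2 c1
  obtain ⟨-, a1, -, -, -, -⟩ := hW W hWo _ _ c1 c2
  ext j k
  have a2 := (hW W hWo _ _ (s1 k).2 (s2 k).2).2.1 j x hx
  simp only [LM, Matrix.of_apply, Matrix.add_apply]
  rw [← a2.1]
  refine cd_congr j ?_
  filter_upwards [hWo.mem_nhds hx] with y hy
  rw [← (a1 k y hy).2]
  refine cdb_congr k ?_
  filter_upwards with z
  push_cast
  rfl

theorem LM_const (c : ℝ) (x : Cn n) : LM (fun _ => c) x = 0 := by
  have h1 : ∀ k : Fin n, cdb k (fun _ : Cn n => (c : ℂ)) = fun _ => 0 := by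
    intro k
    funext y
    simp [cdb]
  ext j k
  simp only [LM, Matrix.of_apply, Matrix.zero_apply, h1]
  simp [cd]

theorem LM_neg (hW : S_WIRT) {W : Set (Cn n)} (hWo : IsOpen W) {Φ : Cn n → ℝ}
    (h1 : ContDiffOn ℝ ∞ Φ W) {x : Cn n} (hx : x ∈ W) :
    LM (fun y => - Φ y) x = - LM Φ x := by
  have h := LM_add hW hWo h1.neg h1 hx
  have h0 : (fun y => - Φ y + Φ y) = fun _ => (0 : ℝ) := by
    funext y
    ring
  rw [h0, LM_const] at h
  exact eq_neg_of_add_eq_zero_left h.symm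

theorem LM_sub_const (hW : S_WIRT) {W : Set (Cn n)} (hWo : IsOpen W) {Φ : Cn n → ℝ}
    (h1 : ContDiffOn ℝ ∞ Φ W) (c : ℝ) {x : Cn n} (hx : x ∈ W) :
    LM (fun y => Φ y - c) x = LM Φ x := by
  have h := LM_add hW hWo h1 (contDiffOn_const (c := -c)) hx
  rw [LM_const, add_zero] at h
  have h0 : (fun y => Φ y - c) = fun y => Φ y + -c := by
    funext y
    ring
  rw [h0]
  exact h

/-- Integrability against a test function. -/
theorem int_testR {T : Set (Cn n)} {κ : Cn n → ℝ} (hT : IsOpen T) (hκ : TestF T κ)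
    {F : Cn n → ℝ} (hF : ContinuousOn F T) : IntegrableOn (fun x => κ x * F x) T := by
  obtain ⟨h1, h2, h3⟩ := hκ
  have h4 : IntegrableOn (fun x => κ x * F x) (tsupport κ) := by
    refine ContinuousOn.integrableOn_compact h2 ?_
    exact h1.continuous.continuousOn.mul (hF.mono h3)
  refine h4.of_forall_sdiff_eq_zero hT.measurableSet ?_
  intro x hx
  have : κ x = 0 := image_eq_zero_of_notMem_tsupport hx.2
  simp [this]

theorem det_pos' {A : Matrix (Fin n) (Fin n) ℂ} (h : A.PosDef) : 0 < A.det.re :=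
  (Complex.pos_iff.1 h.det_pos).1

theorem cont_det {T : Set (Cn n)} {Q : Cn n → Matrix (Fin n) (Fin n) ℂ}
    (hQ : ∀ i j, ContDiffOn ℝ ∞ (fun x => Q x i j) T) : ContinuousOn (fun x => (Q x).det.re) T := by
  have h1 : ContinuousOn Q T :=
    continuousOn_pi.2 fun i => continuousOn_pi.2 fun j => (hQ i j).continuousOn
  exact Complex.continuous_re.comp_continuousOn
    ((Continuous.matrix_det continuous_id).comp_continuousOn h1)

theorem vol_congr {T : Set (Cn n)} (hT : IsOpen T) {κ : Cn n → ℝ}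
    {Q Q' : Cn n → Matrix (Fin n) (Fin n) ℂ} (h : ∀ x ∈ T, Q x = Q' x) :
    vol T κ Q = vol T κ Q' := by
  unfold vol
  refine setIntegral_congr_fun hT.measurableSet fun x hx => ?_
  simp only [h x hx]

theorem vol_nonneg {T : Set (Cn n)} (hT : IsOpen T) {κ : Cn n → ℝ} (hκ : ∀ x, 0 ≤ κ x)
    {Q : Cn n → Matrix (Fin n) (Fin n) ℂ} (h : ∀ x ∈ T, 0 ≤ (Q x).det.re) :
    0 ≤ vol T κ Q := by
  unfold vol
  exact setIntegral_nonneg hT.measurableSet fun x hx => mul_nonneg (hκ x) (h x hx)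

end basics

theorem sbg (hWIRT : S_WIRT) (hMAXF : S_MAXF.{u}) (hTRC : S_TRC) (hKETP : S_KETP.{u})
    (hMOMV : S_MOMV.{u}) (hAYGB : S_AYGB.{u}) (hCLA : S_CLA.{u}) : S_SBG.{u} := by
  intro n hn T G _ R H hH κ hκ a K
  obtain ⟨C, hC⟩ := hCLA hn T R H hH κ hκ a (max K (3 * K))
  refine ⟨3 * Real.exp (2 * C), ?_⟩
  intro Q φ S hQ hφ hle hd hS hSpos htr
  have hT : IsOpen T := hH.et.isOpen
  obtain ⟨kp1, kp2, -⟩ := hKETP T R hH.et
  obtain ⟨-, chfQ, invQ⟩ := kp2 Q Q hQ hQ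
  -- `log S`
  have hlS : InvF T R (fun y => Real.log (S y)) :=
    ⟨hS.1.log fun x hx => (hSpos x hx).ne', fun γ x y h => by simp only [hS.2 γ x y h]⟩
  have hnφ : InvF T R (fun y => - φ y) := ⟨hφ.1.neg, fun γ x y h => by simp only [hφ.2 γ x y h]⟩
  -- the field `χ`
  obtain ⟨chfχ, invχ, -⟩ := kp1 Q (fun y => - φ y) chfQ invQ hnφ
  have hχ : ∀ x ∈ T, pert Q (fun y => - φ y) x = Q x - LM φ x := fun x hx => by
    unfold pert
    rw [LM_neg hWIRT hT hφ.1 hx, sub_eq_add_neg]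
  have hChi : Chi T R H a (pert Q (fun y => - φ y)) :=
    ⟨hH, chfχ, invχ, fun x hx => by rw [hχ x hx]; exact hle x hx⟩
  -- the solution of the Monge-Ampère equation
  obtain ⟨ψ, hψ, heq⟩ := hAYGB T R Q hQ (fun y => Real.log (S y)) hlS 1 one_pos
  have hθ : InvF T R (fun y => ψ y + Real.log (S y)) :=
    ⟨hψ.inv.1.add hlS.1, fun γ x y h => by simp only [hψ.inv.2 γ x y h, hS.2 γ x y h]⟩
  have hdQ : ∀ x ∈ T, 0 < (Q x).det.re := fun x hx => det_pos' (hQ.posDef x hx)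
  have hdQ' : ∀ x ∈ T, 0 < (pert Q ψ x).det.re := fun x hx => det_pos' (hψ.pos x hx)
  have hdet : ∀ x ∈ T, (pert Q ψ x).det.re =
      Real.exp (ψ x + Real.log (S x)) * (Q x).det.re := by
    intro x hx
    have h1 := heq x hx
    unfold ld at h1
    rw [← Real.exp_log (hdQ' x hx), h1]
    have h2 : Real.log (Q x).det.re + 1 * ψ x + Real.log (S x) =
        (ψ x + Real.log (S x)) + Real.log (Q x).det.re := by ring
    rw [h2, Real.exp_add (ψ x + Real.log (S x)), Real.exp_log (hdQ x hx)]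
  -- the maximum principle
  obtain ⟨x₀, hx₀, hmax, hpsd⟩ := hMAXF T R hH.et _ hθ
  have hn0 : (0 : ℝ) < n := by exact_mod_cast hn
  have hθ1 : ∀ y ∈ T, ψ y + Real.log (S y) ≤ 1 := by
    intro y hy
    refine (hmax y hy).trans ?_
    have hP := hQ.posDef x₀ hx₀
    obtain ⟨-, t2, t3, -⟩ := hTRC (Q x₀) (- LM (fun y => ψ y + Real.log (S y)) x₀) hP
    have h1 := (t2 hpsd).1
    have h2 := (hTRC (Q x₀) (pert Q ψ x₀) hP).2.2.1 (hψ.pos x₀ hx₀)
    have h3 := htr x₀ hx₀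
    have hLM : - LM (fun y => ψ y + Real.log (S y)) x₀ =
        Q x₀ - pert Q ψ x₀ - LM (fun y => Real.log (S y)) x₀ := by
      rw [LM_add hWIRT hT hψ.inv.1 hlS.1 hx₀]
      unfold pert
      abel
    have hinv : (Q x₀)⁻¹ * Q x₀ = 1 := by
      have : IsUnit (Q x₀).det := isUnit_iff_ne_zero.2 hP.det_pos.ne'
      exact Matrix.nonsing_inv_mul _ this
    rw [hLM, Matrix.mul_sub, Matrix.mul_sub, hinv, Matrix.trace_sub, Matrix.trace_sub,
      Matrix.trace_one, Fintype.card_fin, Complex.sub_re, Complex.sub_re, Complex.natCast_re] at h1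
    unfold trL at h3
    have h4 : (n : ℝ) * ((pert Q ψ x₀).det.re / (Q x₀).det.re) ^ ((1 : ℝ) / n) ≤ n + 1 := by
      linarith
    have h5 : (pert Q ψ x₀).det.re / (Q x₀).det.re = Real.exp (ψ x₀ + Real.log (S x₀)) := by
      rw [hdet x₀ hx₀, mul_div_assoc, div_self (hdQ x₀ hx₀).ne', mul_one]
    rw [h5, ← Real.exp_mul] at h4
    have h6 : Real.exp ((ψ x₀ + Real.log (S x₀)) * (1 / n)) ≤ Real.exp (1 / n) := by
      refine le_trans ?_ (Real.add_one_le_exp _)
      have h7 : (n : ℝ) * (1 / n + 1) = n + 1 := by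
        rw [mul_add, mul_one_div_cancel hn0.ne', mul_one]
        ring
      rw [← h7] at h4
      exact le_of_mul_le_mul_left h4 hn0
    have h8 := Real.exp_le_exp.1 h6
    have h9 : (0 : ℝ) < 1 / n := by positivity
    rw [mul_le_iff_le_one_left h9] at h8
    exact h8
  have hexp3 : Real.exp 1 ≤ 3 := by
    have := Real.exp_one_lt_d9
    linarith
  have hθ3 : ∀ y ∈ T, Real.exp (ψ y + Real.log (S y)) ≤ 3 := fun y hy =>
    (Real.exp_le_exp.2 (hθ1 y hy)).trans hexp3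
  -- volumes
  have hV' : vol T κ (pert Q ψ) = vol T κ Q := hMOMV T R H hH κ hκ Q ψ chfQ invQ hψ.inv
  have hV0 : 0 ≤ vol T κ Q := vol_nonneg hT hκ.nonneg fun x hx => (hdQ x hx).le
  have hdH : ∀ x ∈ T, 0 < (H x).det.re := fun x hx => det_pos' (hH.posDef x hx)
  -- maxima
  obtain ⟨x₁, hx₁, hm₁, -⟩ := hMAXF T R hH.et _ hφ
  have hφψ : InvF T R (fun y => φ y + ψ y) :=
    ⟨hφ.1.add hψ.inv.1, fun γ x y h => by simp only [hφ.2 γ x y h, hψ.inv.2 γ x y h]⟩
  obtain ⟨x₂, hx₂, hm₂, -⟩ := hMAXF T R hH.et _ hφψ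
  set m₁ := φ x₁ with hm₁def
  set m₂ := φ x₂ + ψ x₂ with hm₂def
  have e1 : ∀ x ∈ T, pert (pert Q (fun y => - φ y)) (fun y => φ y - m₁) x = Q x := by
    intro x hx
    change pert Q (fun y => - φ y) x + LM (fun y => φ y - m₁) x = Q x
    rw [hχ x hx, LM_sub_const hWIRT hT hφ.1 m₁ hx]
    abel
  have e2 : ∀ x ∈ T, pert (pert Q (fun y => - φ y)) (fun y => φ y + ψ y - m₂) x =
      pert Q ψ x := by
    intro x hx
    change pert Q (fun y => - φ y) x + LM (fun y => φ y + ψ y - m₂) x = Q x + LM ψ x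
    rw [hχ x hx, LM_sub_const hWIRT hT hφψ.1 m₂ hx, LM_add hWIRT hT hφ.1 hψ.inv.1 hx]
    abel
  have np1 : NPot T R (pert Q (fun y => - φ y)) (fun y => φ y - m₁) :=
    ⟨⟨⟨hφ.1.sub contDiffOn_const, fun γ x y h => by simp only [hφ.2 γ x y h]⟩,
      fun x hx => by rw [e1 x hx]; exact hQ.posDef x hx⟩,
      fun x hx => sub_nonpos.2 (hm₁ x hx), ⟨x₁, hx₁, sub_self _⟩⟩
  have np2 : NPot T R (pert Q (fun y => - φ y)) (fun y => φ y + ψ y - m₂) :=
    ⟨⟨⟨hφψ.1.sub contDiffOn_const, fun γ x y h => by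
        simp only [hφ.2 γ x y h, hψ.inv.2 γ x y h]⟩,
      fun x hx => by rw [e2 x hx]; exact hψ.pos x hx⟩,
      fun x hx => sub_nonpos.2 (hm₂ x hx), ⟨x₂, hx₂, sub_self _⟩⟩
  have d1 : DensLe T κ H (max K (3 * K)) (pert (pert Q (fun y => - φ y)) fun y => φ y - m₁) := by
    intro x hx
    rw [e1 x hx, vol_congr hT e1]
    refine (hd x hx).trans ?_
    have h1 : 0 ≤ vol T κ Q * (H x).det.re := mul_nonneg hV0 (hdH x hx).le
    have h2 := mul_le_mul_of_nonneg_right (le_max_left K (3 * K)) h1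
    rw [mul_assoc, mul_assoc]
    exact h2
  have d2 : DensLe T κ H (max K (3 * K))
      (pert (pert Q (fun y => - φ y)) fun y => φ y + ψ y - m₂) := by
    intro x hx
    rw [e2 x hx, vol_congr hT e2, hV', hdet x hx]
    have h1 : 0 ≤ vol T κ Q * (H x).det.re := mul_nonneg hV0 (hdH x hx).le
    have h2 := mul_le_mul_of_nonneg_right (le_max_right K (3 * K)) h1
    have h3 := hd x hx
    have h4 : Real.exp (ψ x + Real.log (S x)) * (Q x).det.re ≤ 3 * (Q x).det.re :=
      mul_le_mul_of_nonneg_right (hθ3 x hx) (hdQ x hx).le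
    calc Real.exp (ψ x + Real.log (S x)) * (Q x).det.re ≤ 3 * (Q x).det.re := h4
      _ ≤ 3 * (K * vol T κ Q * (H x).det.re) := by linarith
      _ = 3 * K * (vol T κ Q * (H x).det.re) := by ring
      _ ≤ max K (3 * K) * (vol T κ Q * (H x).det.re) := h2
      _ = max K (3 * K) * vol T κ Q * (H x).det.re := by ring
  have hcl := hC _ _ _ hChi np1 np2 d1 d2
  -- conclusion
  set c₀ := m₂ - m₁ with hc₀
  have hab : ∀ x ∈ T, |c₀ - ψ x| ≤ C := by
    intro x hx
    have h1 := hcl x hx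
    have h2 : φ x - m₁ - (φ x + ψ x - m₂) = c₀ - ψ x := by rw [hc₀]; ring
    rwa [h2] at h1
  have hint : IntegrableOn (fun y => Real.exp (c₀ + C) * (κ y * ((Q y).det.re * S y))) T :=
    (int_testR hT hκ.test ((cont_det hQ.smooth).mul hS.1.continuousOn)).const_mul _
  have hVle : vol T κ Q ≤ Real.exp (c₀ + C) * ∫ y in T, κ y * (Q y).det.re * S y := by
    rw [← hV']
    unfold vol
    have h1 : ∫ y in T, κ y * (pert Q ψ y).det.re ≤
        ∫ y in T, Real.exp (c₀ + C) * (κ y * ((Q y).det.re * S y)) := by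
      refine integral_mono_of_nonneg ?_ hint ?_
      · refine (ae_restrict_iff' hT.measurableSet).2 (ae_of_all _ fun y hy => ?_)
        exact mul_nonneg (hκ.nonneg y) (hdQ' y hy).le
      · refine (ae_restrict_iff' hT.measurableSet).2 (ae_of_all _ fun y hy => ?_)
        change κ y * (pert Q ψ y).det.re ≤ Real.exp (c₀ + C) * (κ y * ((Q y).det.re * S y))
        rw [hdet y hy, Real.exp_add (ψ y), Real.exp_log (hSpos y hy)]
        have h2 : ψ y ≤ c₀ + C := by
          have := (abs_le.1 (hab y hy)).1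
          linarith
        have h3 := Real.exp_le_exp.2 h2
        have h4 : 0 ≤ κ y * ((Q y).det.re * S y) :=
          mul_nonneg (hκ.nonneg y) (mul_nonneg (hdQ y hy).le (hSpos y hy).le)
        calc κ y * (Real.exp (ψ y) * S y * (Q y).det.re) =
              Real.exp (ψ y) * (κ y * ((Q y).det.re * S y)) := by ring
          _ ≤ Real.exp (c₀ + C) * (κ y * ((Q y).det.re * S y)) :=
              mul_le_mul_of_nonneg_right h3 h4
    refine h1.trans (le_of_eq ?_)
    rw [integral_const_mul]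
    congr 1
    refine setIntegral_congr_fun hT.measurableSet fun y _ => ?_
    exact (mul_assoc _ _ _).symm
  intro x hx
  have hI0 : 0 ≤ ∫ y in T, κ y * (Q y).det.re * S y :=
    setIntegral_nonneg hT.measurableSet fun y hy =>
      mul_nonneg (mul_nonneg (hκ.nonneg y) (hdQ y hy).le) (hSpos y hy).le
  have hSx : S x ≤ 3 * Real.exp (C - c₀) := by
    have h1 := hθ3 x hx
    rw [Real.exp_add, Real.exp_log (hSpos x hx)] at h1
    have h2 : - ψ x ≤ C - c₀ := by
      have := (abs_le.1 (hab x hx)).2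
      linarith
    have h3 := Real.exp_le_exp.2 h2
    have h4 : S x = Real.exp (ψ x) * S x * Real.exp (- ψ x) := by
      rw [mul_comm (Real.exp (ψ x)) (S x), mul_assoc, ← Real.exp_add, add_neg_cancel,
        Real.exp_zero, mul_one]
    rw [h4]
    exact mul_le_mul h1 h3 (Real.exp_nonneg _) (by norm_num)
  calc S x * vol T κ Q ≤ (3 * Real.exp (C - c₀)) *
        (Real.exp (c₀ + C) * ∫ y in T, κ y * (Q y).det.re * S y) :=
        mul_le_mul hSx hVle hV0 (by positivity)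
    _ = 3 * (Real.exp (C - c₀) * Real.exp (c₀ + C)) * ∫ y in T, κ y * (Q y).det.re * S y := by
        ring
    _ = 3 * Real.exp (2 * C) * ∫ y in T, κ y * (Q y).det.re * S y := by
        rw [← Real.exp_add]
        congr 3
        ring

end Pool.Agent.Helper56.HS
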