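import Pool.Agent.Helper15.HS.GoalsC

/-! # DBZ: the weighted `L¹` norm of `∂̄B` tends to zero -/

open Complex Metric Set Filter Topology MeasureTheory
open scoped ContDiff ComplexConjugate ComplexOrder Manifold Matrix

namespace Pool.Agent.Helper56.HS

open Pool.Agent.Helper95.Lin Pool.Agent.Helper16.Abund Pool.Agent.Helper92.Orb
  Pool.Agent.Helper10.SP Pool.Agent.Helper95.RK Pool.Agent.Helper57.HS Pool.Agent.Helper15.HS

universe u

namespace DBZ

variable {n : ℕ}

theorem contM {T : Set (Cn n)} {Q : Cn n → Matrix (Fin n) (Fin n) ℂ}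
    (hQ : ∀ i j, ContDiffOn ℝ ∞ (fun x => Q x i j) T) : ContinuousOn Q T :=
  continuousOn_pi.2 fun i => continuousOn_pi.2 fun j => (hQ i j).continuousOn

theorem cont_det {T : Set (Cn n)} {Q : Cn n → Matrix (Fin n) (Fin n) ℂ}
    (hQ : ContinuousOn Q T) : ContinuousOn (fun x => (Q x).det) T :=
  (Continuous.matrix_det continuous_id).comp_continuousOn hQ

theorem cont_inv {T : Set (Cn n)} {Q : Cn n → Matrix (Fin n) (Fin n) ℂ}
    (hQ : ContinuousOn Q T) (h0 : ∀ x ∈ T, (Q x).det ≠ 0) :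
    ContinuousOn (fun x => (Q x)⁻¹) T := by
  have h1 : ContinuousOn (fun x => ((Q x).det)⁻¹ • (Q x).adjugate) T :=
    ((cont_det hQ).inv₀ h0).smul
      ((Continuous.matrix_adjugate continuous_id).comp_continuousOn hQ)
  refine h1.congr fun x _ => ?_
  rw [Matrix.inv_def, Ring.inverse_eq_inv']

theorem cont_trace {T : Set (Cn n)} {Q P : Cn n → Matrix (Fin n) (Fin n) ℂ}
    (hQ : ContinuousOn Q T) (hP : ContinuousOn P T) (h0 : ∀ x ∈ T, (P x).det ≠ 0) :
    ContinuousOn (fun x => (Matrix.trace (Q x * (P x)⁻¹)).re) T := by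
  have h1 : ContinuousOn (fun x => Q x * (P x)⁻¹) T :=
    (Continuous.matrix_mul continuous_fst continuous_snd).comp_continuousOn
      (hQ.prodMk (cont_inv hP h0))
  have h2 : ContinuousOn (fun x => Matrix.trace (Q x * (P x)⁻¹)) T :=
    (Continuous.matrix_trace continuous_id).comp_continuousOn h1
  exact Complex.continuous_re.comp_continuousOn h2

open scoped MatrixOrder in
theorem trace_nonneg {Q P : Matrix (Fin n) (Fin n) ℂ} (hQ : Q.PosSemidef) (hP : P.PosSemidef) :
    0 ≤ (Matrix.trace (Q * P)).re := by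
  obtain ⟨S, rfl⟩ := CStarAlgebra.nonneg_iff_eq_star_mul_self.1 hP.nonneg
  have h1 : Matrix.trace (Q * (star S * S)) = Matrix.trace (S * Q * Sᴴ) := by
    rw [← Matrix.mul_assoc, Matrix.trace_mul_comm, Matrix.star_eq_conjTranspose, Matrix.mul_assoc]
  rw [h1]
  exact (Complex.nonneg_iff.1 (hQ.mul_mul_conjTranspose_same S).trace_nonneg).1

theorem ptw {D f g a E K r : ℝ} (hD : 0 ≤ D) (hf : 0 ≤ f) (hg : 0 ≤ g) (ha : 0 ≤ a)
    (hE : D ≤ E) (hr : 0 < r) (h : f ^ 2 ≤ K * g * a) :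
    D * f ≤ r / 2 * |K| * E * g + (2 * r)⁻¹ * (D * a) := by
  have hμ : 0 < (2 * r)⁻¹ := by positivity
  have h1 : 2 * r * (2 * r)⁻¹ = 1 := mul_inv_cancel₀ (by positivity)
  set μ := (2 * r)⁻¹ with hμd
  have hK : K * g * a ≤ |K| * g * a := by
    have := le_abs_self K
    have h2 : 0 ≤ g * a := mul_nonneg hg ha
    nlinarith
  have hs0 : 0 ≤ r / 2 * |K| * g + μ * a := by positivity
  have h2 : f ^ 2 ≤ (r / 2 * |K| * g + μ * a) ^ 2 := by
    have h3 : 0 ≤ (r / 2 * |K| * g - μ * a) ^ 2 := sq_nonneg _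
    have h4 : 4 * (r / 2 * |K| * g) * (μ * a) = |K| * g * a := by
      calc 4 * (r / 2 * |K| * g) * (μ * a) = (2 * r * μ) * (|K| * g * a) := by ring
        _ = |K| * g * a := by rw [h1, one_mul]
    nlinarith
  have h3 : f ≤ r / 2 * |K| * g + μ * a := by
    exact (sq_le_sq₀ hf hs0).1 h2
  calc D * f ≤ D * (r / 2 * |K| * g + μ * a) := mul_le_mul_of_nonneg_left h3 hD
    _ = D * (r / 2 * |K| * g) + μ * (D * a) := by ring
    _ ≤ E * (r / 2 * |K| * g) + μ * (D * a) := by
        have : D * (r / 2 * |K| * g) ≤ E * (r / 2 * |K| * g) :=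
          mul_le_mul_of_nonneg_right hE (by positivity)
        linarith
    _ = r / 2 * |K| * E * g + μ * (D * a) := by ring

end DBZ

open DBZ in
/-- DBZ, relative to `S_CL` (only `0 ≤ AAt`), `S_UB`, `S_DBB`, `S_QPD`, `S_CONC`, `S_AVC`,
`S_INVK`. -/
theorem dbz (hCL : S_CL) (hUB : S_UB.{u}) (hDBB : S_DBB.{u}) (hQPD : S_QPD.{u})
    (hCONC : S_CONC.{u}) (hAVC : S_AVC.{u}) (hINVK : S_INVK.{u}) : S_DBZ.{u} := by
  intro n T G _ R H hH hRBC κ hκ hex k p hk hp hV ε Q hε hε1 hlim hT C hC hCc l a c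
  have hTo : IsOpen T := hH.et.isOpen
  have hHer : HerT T R H := ⟨hH.posDef, hH.smooth, hH.inv⟩
  have hQer : ∀ j, HerT T R (Q j) := fun j => ⟨(hT j).ket.posDef, (hT j).ket.smooth, (hT j).ket.inv⟩
  obtain ⟨K, hK, hQ1, hQ2⟩ := hQPD T R H hH κ hκ hex k p hp hV
  obtain ⟨B, hB⟩ := hQ2 C hC hCc
  obtain ⟨K', hK'⟩ := hDBB T R H hHer C hC hCc
  have hd0 : ∀ j, ∀ x ∈ T, 0 < dens k (ε j) H (Q j) x := fun j =>
    (hQ1 (ε j) (Q j) (hε j) (hε1 j) (hT j)).2
  have hd1 : ∀ j, ∀ x ∈ T, dens k (ε j) H (Q j) x ≤ Real.exp K := by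
    intro j x hx
    have h1 := (hQ1 (ε j) (Q j) (hε j) (hε1 j) (hT j)).1.le x hx
    rw [← Real.exp_log (hd0 j x hx)]
    exact Real.exp_le_exp.2 h1
  have hU : ∀ j, ∀ x ∈ T, ε j * (Matrix.trace (H x * (Q j x)⁻¹)).re ≤ n := by
    intro j x hx
    have h1 := hUB T R (Q j) H (fun x => (ε j : ℂ) • H x) (hT j).ket hHer hRBC (hT j).eq (ε j)
      (hε j) (fun y _ => by
        rw [sub_self]
        exact Matrix.PosSemidef.zero) x hx
    rw [le_div_iff₀ (hε j)] at h1
    rw [mul_comm]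
    exact h1
  have hA : ∀ j, ∀ x ∈ T, 0 ≤ AAt H (Q j) x := by
    intro j x hx
    exact (hCL T hTo (Q j) H (fun x => (ε j : ℂ) • H x)
      ⟨(hT j).ket.smooth, fun y hy => ((hT j).ket.posDef y hy).isHermitian, (hT j).ket.closed⟩
      (hT j).ket.posDef (hT j).eq hH.smooth hH.posDef x hx).1
  have hlimC := (hCONC T R H hH hRBC κ hκ k p hk hp hV ε Q hε hlim hT).2.2.2
  have hinv := fun j => hINVK T R hH.et H (Q j) hHer (hQer j)
  have hav := hAVC T R H hH κ hκ hex k p hp hV ε Q hε hlim hT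
    (fun j x => ε j * AAt H (Q j) x) (fun j => continuousOn_const.mul (hinv j).2.1)
    (fun j x hx => mul_nonneg (hε j).le (hA j x hx))
    (fun j γ x y h => by rw [((hinv j).2.2.1 γ x y h).2]) hlimC C hC hCc
  have hHd : ∀ x ∈ T, (H x).det ≠ 0 := fun x hx => (hH.posDef x hx).det_pos.ne'
  have hHc : ContinuousOn H T := contM hH.smooth
  -- continuity of the densities
  have hDc : ∀ j, ContinuousOn (dens k (ε j) H (Q j)) T := by
    intro j
    have h1 : ContinuousOn (fun x => (Q j x).det.re) T :=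
      Complex.continuous_re.comp_continuousOn (cont_det (contM (hT j).ket.smooth))
    have h2 : ContinuousOn (fun x => ε j ^ k * (H x).det.re) T :=
      continuousOn_const.mul (Complex.continuous_re.comp_continuousOn (cont_det hHc))
    refine h1.div h2 fun x hx => ?_
    have h3 : 0 < (H x).det.re := (Complex.pos_iff.1 (hH.posDef x hx).det_pos).1
    have h4 := hε j
    positivity
  have hgc : ∀ j, ContinuousOn (fun x => (Matrix.trace (Q j x * (H x)⁻¹)).re) T := fun j =>
    cont_trace (contM (hT j).ket.smooth) hHc hHd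
  have hg0 : ∀ j, ∀ x ∈ T, 0 ≤ (Matrix.trace (Q j x * (H x)⁻¹)).re := fun j x hx =>
    trace_nonneg ((hT j).ket.posDef x hx).posSemidef (hH.posDef x hx).inv.posSemidef
  -- the main estimate
  have main : ∀ r : ℝ, 0 < r → ∀ j, ∫ x in C, dens k (ε j) H (Q j) x *
      ‖cdb l (fun y => Bep (ε j) H (Q j) y a c) x‖ ≤
      r / 2 * |K'| * Real.exp K * B +
        (2 * r)⁻¹ * ∫ x in C, dens k (ε j) H (Q j) x * (ε j * AAt H (Q j) x) := by
    intro r hr j
    have i1 : IntegrableOn (fun x => (Matrix.trace (Q j x * (H x)⁻¹)).re) C :=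
      ((hgc j).mono hC).integrableOn_compact hCc
    have i2 : IntegrableOn (fun x => dens k (ε j) H (Q j) x * (ε j * AAt H (Q j) x)) C :=
      (((hDc j).mul (continuousOn_const.mul (hinv j).2.1)).mono hC).integrableOn_compact hCc
    have h1 : ∫ x in C, dens k (ε j) H (Q j) x *
        ‖cdb l (fun y => Bep (ε j) H (Q j) y a c) x‖ ≤
        ∫ x in C, (r / 2 * |K'| * Real.exp K * (Matrix.trace (Q j x * (H x)⁻¹)).re +
          (2 * r)⁻¹ * (dens k (ε j) H (Q j) x * (ε j * AAt H (Q j) x))) := by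
      refine integral_mono_of_nonneg ?_ ((i1.const_mul _).add (i2.const_mul _)) ?_
      · refine (ae_restrict_iff' hCc.measurableSet).2 (ae_of_all _ fun x hx => ?_)
        exact mul_nonneg (hd0 j x (hC hx)).le (norm_nonneg _)
      · refine (ae_restrict_iff' hCc.measurableSet).2 (ae_of_all _ fun x hx => ?_)
        have h2 := (hK' (ε j) (Q j) (hε j) (hT j).ket (hU j) x hx).2
        have h3 : ‖cdb l (fun y => Bep (ε j) H (Q j) y a c) x‖ ^ 2 ≤
            ∑ l, ∑ a, ∑ c, ‖cdb l (fun y => Bep (ε j) H (Q j) y a c) x‖ ^ 2 := by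
          refine le_trans ?_ (Finset.single_le_sum (fun l' _ => ?_) (Finset.mem_univ l))
          · refine le_trans ?_ (Finset.single_le_sum (fun a' _ => ?_) (Finset.mem_univ a))
            · exact Finset.single_le_sum (f := fun c =>
                ‖cdb l (fun y => Bep (ε j) H (Q j) y a c) x‖ ^ 2) (fun c' _ => sq_nonneg _)
                (Finset.mem_univ c)
            · exact Finset.sum_nonneg fun _ _ => sq_nonneg _
          · exact Finset.sum_nonneg fun _ _ => Finset.sum_nonneg fun _ _ => sq_nonneg _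
        exact ptw (hd0 j x (hC hx)).le (norm_nonneg _) (hg0 j x (hC hx))
          (mul_nonneg (hε j).le (hA j x (hC hx))) (hd1 j x (hC hx)) hr (h3.trans h2)
    refine h1.trans ?_
    rw [integral_add (i1.const_mul _) (i2.const_mul _), integral_const_mul, integral_const_mul]
    have h2 := hB (ε j) (Q j) (hε j) (hε1 j) (hT j)
    have h3 : 0 ≤ r / 2 * |K'| * Real.exp K := by positivity
    have h4 := mul_le_mul_of_nonneg_left h2 h3
    linarith
  have hnn : ∀ j, 0 ≤ ∫ x in C, dens k (ε j) H (Q j) x *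
      ‖cdb l (fun y => Bep (ε j) H (Q j) y a c) x‖ := fun j =>
    setIntegral_nonneg hCc.measurableSet fun x hx =>
      mul_nonneg (hd0 j x (hC hx)).le (norm_nonneg _)
  rw [Metric.tendsto_atTop]
  intro δ hδ
  set M := |K'| * Real.exp K * |B| + 1 with hM
  have hM0 : 0 < M := by positivity
  have hr : 0 < δ / M := by positivity
  obtain ⟨N, hN⟩ := Metric.tendsto_atTop.1 hav (δ / M * δ) (by positivity)
  refine ⟨N, fun j hj => ?_⟩
  have h1 := main (δ / M) hr j
  have h2 := hN j hj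
  rw [Real.dist_eq, sub_zero] at h2 ⊢
  rw [abs_of_nonneg (hnn j)]
  have h3 := lt_of_le_of_lt (le_abs_self _) h2
  have h4 : δ / M / 2 * |K'| * Real.exp K * B ≤ δ / 2 := by
    have h5 : |K'| * Real.exp K * B ≤ M := by
      have : |K'| * Real.exp K * B ≤ |K'| * Real.exp K * |B| :=
        mul_le_mul_of_nonneg_left (le_abs_self B) (by positivity)
      linarith
    calc δ / M / 2 * |K'| * Real.exp K * B = (δ / M / 2) * (|K'| * Real.exp K * B) := by ring
      _ ≤ (δ / M / 2) * M := mul_le_mul_of_nonneg_left h5 (by positivity)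
      _ = δ / 2 := by field_simp
  have h6 : (2 * (δ / M))⁻¹ * ∫ x in C, dens k (ε j) H (Q j) x * (ε j * AAt H (Q j) x) <
      δ / 2 := by
    calc (2 * (δ / M))⁻¹ * ∫ x in C, dens k (ε j) H (Q j) x * (ε j * AAt H (Q j) x) <
          (2 * (δ / M))⁻¹ * (δ / M * δ) := mul_lt_mul_of_pos_left h3 (by positivity)
      _ = δ / 2 := by field_simp
  linarith

end Pool.Agent.Helper56.HS
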